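import Mathlib
import Pool.Agent.H49.L.FinL

open Finset

namespace Pool.Agent.Results.MP_4b686f_co.EightFold

/-- For all `k ≥ 1` and all `n ≥ 8k`, the least number of strictly positive `k`-subsums (and of
strictly positive `(n-k)`-subsums) of `n` real numbers with strictly positive total is
`C(n-1, k-1)`. -/
theorem result (n k : ℕ) (hk : 1 ≤ k) (hn : 8 * k ≤ n) (m : ℕ) (hm : m = k ∨ m = n - k) :
    IsLeast {v : ℕ | ∃ x : Fin n → ℝ, 0 < ∑ i, x i ∧
      ((Finset.univ.powersetCard m).filter
        (fun S : Finset (Fin n) => 0 < ∑ i ∈ S, x i)).card = v}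
      ((n - 1).choose (k - 1)) := by
  have h := Pool.Agent.H49.M4.least n k hk (by omega) (Pool.Agent.H49.L.all8 n k hk hn)
  rcases hm with rfl | rfl
  · exact h
  · have hv := Pool.Agent.H49.MMS.values_symm n k hk (by omega)
    have h' : IsLeast (Pool.Agent.H49.MMS.values n k) ((n - 1).choose (k - 1)) := h
    rw [hv] at h'
    exact h'

end Pool.Agent.Results.MP_4b686f_co.EightFold
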