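import Mathlib
import Pool.Agent.H61.MMS.C2

open Finset

namespace Pool.Agent.Results.MP_4b686f_co.NearMultiples

/-- For `n ≥ 5k` with `10^11 (n mod k) ≤ n`, the least number of strictly positive `k`-subsums
(and of strictly positive `(n-k)`-subsums) of `n` real numbers with strictly positive total is
`C(n-1, k-1)`. -/
theorem result (n k : ℕ) (hk : 1 ≤ k) (hn : 5 * k ≤ n) (hr : 10 ^ 11 * (n % k) ≤ n) (m : ℕ)
    (hm : m = k ∨ m = n - k) :
    IsLeast {v : ℕ | ∃ x : Fin n → ℝ, 0 < ∑ i, x i ∧
      ((Finset.univ.powersetCard m).filter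
        (fun S : Finset (Fin n) => 0 < ∑ i ∈ S, x i)).card = v}
      ((n - 1).choose (k - 1)) := by
  have h := Pool.Agent.H61.MMS.mms_least n k hk hn hr
  rcases hm with rfl | rfl
  · exact h.1
  · exact h.2

end Pool.Agent.Results.MP_4b686f_co.NearMultiples
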