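import Mathlib
import Pool.Agent.H49.MMS.Fin

open Finset

namespace Pool.Agent.Results.MP_4b686f_co.NearTwo

/-- For `n = 2 m + r` with `r = 1` or `1 ≤ r ≤ m / 10^6`, and `k = m` or `k = m + r = n - m`, the
least number of strictly positive `k`-subsums of `n` real numbers with strictly positive total is
`C(n-2, m)`. -/
theorem result (m r : ℕ) (hm : 1 ≤ m) (hr : r = 1 ∨ (1 ≤ r ∧ 1000000 * r ≤ m)) (k : ℕ)
    (hk : k = m ∨ k = m + r) :
    IsLeast {v : ℕ | ∃ x : Fin (2 * m + r) → ℝ, 0 < ∑ i, x i ∧
      ((Finset.univ.powersetCard k).filter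
        (fun S : Finset (Fin (2 * m + r)) => 0 < ∑ i ∈ S, x i)).card = v}
      ((2 * m + r - 2).choose m) := by
  rcases hk with rfl | rfl
  · exact Pool.Agent.H49.MMS.least_right (2 * k + r) k hm (by omega) (by omega)
  · have h := Pool.Agent.H49.MMS.least_left (2 * m + r) (m + r) (by omega) (by omega) (by omega)
    have e : 2 * m + r - (m + r) = m := by omega
    rw [e] at h
    exact h

end Pool.Agent.Results.MP_4b686f_co.NearTwo
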